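import Pool.Agent.NH10.GM.Main

/-!
# Pair correlation and a one-sided bound for the variance of primes in short intervals

Assume the Riemann hypothesis.  Goldston and Montgomery (1987) and Goldston (1988) showed that
asymptotic formulae for Montgomery's function `F(α, T)` beyond `α = 1`, or for the pair correlation
of the zeros, are equivalent to asymptotic formulae for the mean square of the error term for the
primes in short intervals of relative length `1 / T`.  Here the primes are counted with Gaussian
weights,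
`V(T, x) = ∑ Λ(n) exp(-(T²/2) log²(n/x)) - ∫₀^∞ exp(-(T²/2) log²(v/x)) dv`,
and we show that *upper bounds* suffice: if the normalised mean square
`J(T; a, b) = (T / log² T) ∫ V(T, x)² dx / x²` over `T^a ≤ x ≤ T^b` has upper limit at most
`√π (b - a)` for all `1 ≤ a < b`, then Montgomery's pair correlation conjecture holds (and then
the limit exists and is equal to `√π (b - a)` for all `1 ≤ a < b`).
-/

open MeasureTheory Filter Topology Real

namespace Pool.Agent.Results.MP_103a5c_nt.GaussianVariance

/-- the nontrivial zeros of `ζ` with ordinate in `(0, T]` -/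
def zeros (T : ℝ) : Set ℂ :=
  {s : ℂ | 0 < s.re ∧ s.re < 1 ∧ 0 < s.im ∧ s.im ≤ T ∧ riemannZeta s = 0}

/-- the multiplicity of `s` as a zero of `ζ` -/
noncomputable def mult (s : ℂ) : ℕ := analyticOrderNatAt riemannZeta s

/-- `N(T; α, β)`: the number of ordered pairs of zeros (counted with multiplicity, the diagonal
included) with ordinates in `(0, T]` whose difference lies in `[2πα / log T, 2πβ / log T]` -/
noncomputable def N (T α β : ℝ) : ℕ :=
  ∑ᶠ s ∈ zeros T, ∑ᶠ s' ∈ {s' : ℂ | s' ∈ zeros T ∧
    2 * Real.pi * α / Real.log T ≤ s.im - s'.im ∧ s.im - s'.im ≤ 2 * Real.pi * β / Real.log T},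
      mult s * mult s'

/-- the constant of the conjecture -/
noncomputable def P (α β : ℝ) : ℝ :=
  (∫ u in α..β, (1 - (Real.sin (Real.pi * u) / (Real.pi * u)) ^ 2)) +
    if α ≤ 0 ∧ 0 ≤ β then 1 else 0

/-- `(T / 2π) log T` -/
noncomputable def X (T : ℝ) : ℝ := T / (2 * Real.pi) * Real.log T

/-- Montgomery's pair correlation conjecture -/
def Montgomery : Prop := ∀ α β : ℝ, α < β →
  Asymptotics.IsEquivalent atTop (fun T => (N T α β : ℝ)) (fun T => P α β * X T)

/-- the primes near `x`, in a Gaussian window of relative width `1 / T`, minus the expected value: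
`V(T, x) = ∑ₙ Λ(n) exp(-(T²/2) log²(n/x)) - ∫₀^∞ exp(-(T²/2) log²(v/x)) dv` -/
noncomputable def V (T x : ℝ) : ℝ :=
  (∑' n : ℕ, ArithmeticFunction.vonMangoldt n *
    Real.exp (-(T ^ 2 / 2 * Real.log (n / x) ^ 2))) -
    ∫ v in Set.Ioi (0 : ℝ), Real.exp (-(T ^ 2 / 2 * Real.log (v / x) ^ 2))

/-- the normalised mean square of `V` over the window `[T^a, T^b]` -/
noncomputable def J (T a b : ℝ) : ℝ :=
  T / Real.log T ^ 2 * ∫ x in (T ^ a)..(T ^ b), V T x ^ 2 / x ^ 2

lemma Mont_eq : Montgomery ↔ Pool.Agent.Y744.G.Montgomery atTop := Iff.rfl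

lemma J_eq : J = Pool.Agent.NH10.GM.JV := rfl

open Pool.Agent.Y749.Rig Pool.Agent.NH10.GM

/-- **Pair correlation and upper bounds for the primes (under RH).**  Montgomery's conjecture, the
asymptotic formula for the mean square of the primes with Gaussian weights over all windows
`[T^a, T^b]`, `1 ≤ a < b`, and the corresponding upper bounds alone, are equivalent. -/
theorem result (hRH : RiemannHypothesis) :
    List.TFAE [Montgomery,
      ∀ a b : ℝ, 1 ≤ a → a < b →
        Tendsto (fun T => J T a b) atTop (𝓝 (Real.sqrt Real.pi * (b - a))),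
      ∀ a b : ℝ, 1 ≤ a → a < b → ∀ ε : ℝ, 0 < ε →
        ∀ᶠ T in atTop, J T a b ≤ Real.sqrt Real.pi * (b - a) + ε] := by
  have hmain := (P.main hRH atTop le_rfl).1
  tfae_have 1 → 2 := by
    intro h a b ha hab
    have h0 := hmain.1 (Mont_eq.1 h)
    have hm : MeanLim atTop := mean_lim hRH le_rfl fun R => (P.up_iff le_rfl R).1 (h0 R)
    rw [J_eq]
    exact primes_of_PT hRH (fun h hh => PT_weak (weak_mean hRH le_rfl hm) hh) ha hab
  tfae_have 2 → 3 := by
    intro h a b ha hab ε hε
    exact (h a b ha hab).eventually (ge_mem_nhds (by linarith))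
  tfae_have 3 → 1 := by
    intro h
    rw [Mont_eq, hmain]
    intro R
    rw [P.up_iff le_rfl]
    exact mean_of_PT le_rfl (fun y hy => PT_of_primes hRH h hy) R
  tfae_finish

end Pool.Agent.Results.MP_103a5c_nt.GaussianVariance
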