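import Pool.Agent.NH10.RB.Main

/-!
# Pair correlation from lower bounds for the means of `F` and a weak repulsion of close pairs

Assume the Riemann hypothesis.  Montgomery's conjecture is (equivalent to) `F(α) → 1` in the mean
over windows beyond `1`.  *Lower* bounds `≥ (b - a)` for the means of `F` over the windows
`[a, b]`, `1 ≤ a < b`, are by themselves compatible with, say, a positive proportion of multiple
zeros, which only makes `F` larger.  We show that the lower bounds become equivalent to the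
conjecture as soon as close pairs are slightly rare: for every `η > 0` there are arbitrarily small `β > 0` for which the number of
ordered pairs of zeros (diagonal included) with `|γ - γ'| ≤ 2πβ / log T` is at most
`(1 + ηβ) (T / 2π) log T`.  (The conjecture predicts `1 + (2π²/9 + o(1)) β³`.)
-/

open MeasureTheory Filter Topology Real
open Complex (I)

namespace Pool.Agent.Results.MP_103a5c_nt.LowerBoundsRepulsion

/-- the nontrivial zeros of `ζ` with ordinate in `(0, T]` -/
def zeros (T : ℝ) : Set ℂ :=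
  {s : ℂ | 0 < s.re ∧ s.re < 1 ∧ 0 < s.im ∧ s.im ≤ T ∧ riemannZeta s = 0}

/-- the multiplicity of `s` as a zero of `ζ` -/
noncomputable def mult (s : ℂ) : ℕ := analyticOrderNatAt riemannZeta s

/-- `N(T; α, β)`: the number of ordered pairs of zeros (counted with multiplicity, the diagonal
included) with ordinates in `(0, T]` whose difference lies in `[2πα / log T, 2πβ / log T]` -/
noncomputable def N (T α β : ℝ) : ℕ :=
  ∑ᶠ s ∈ zeros T, ∑ᶠ s' ∈ {s' : ℂ | s' ∈ zeros T ∧
    2 * Real.pi * α / Real.log T ≤ s.im - s'.im ∧ s.im - s'.im ≤ 2 * Real.pi * β / Real.log T},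
      mult s * mult s'

/-- the constant of the conjecture -/
noncomputable def P (α β : ℝ) : ℝ :=
  (∫ u in α..β, (1 - (Real.sin (Real.pi * u) / (Real.pi * u)) ^ 2)) +
    if α ≤ 0 ∧ 0 ≤ β then 1 else 0

/-- `(T / 2π) log T` -/
noncomputable def X (T : ℝ) : ℝ := T / (2 * Real.pi) * Real.log T

/-- Montgomery's pair correlation conjecture along `l` (`l = atTop` is the conjecture) -/
def Montgomery (l : Filter ℝ) : Prop := ∀ α β : ℝ, α < β →
  Asymptotics.IsEquivalent l (fun T => (N T α β : ℝ)) (fun T => P α β * X T)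

/-- Montgomery's function `F(α) = F(α, T)` -/
noncomputable def F (T α : ℝ) : ℂ :=
  (X T : ℂ)⁻¹ * ∑ᶠ s ∈ zeros T, ∑ᶠ s' ∈ zeros T, (mult s : ℂ) * (mult s' : ℂ) *
    ((T : ℂ) ^ (I * α * (s.im - s'.im)) * (4 / (4 + (s.im - s'.im) ^ 2)))

/-- lower bounds for the means of `F` over all windows beyond `1` -/
def MeanLower (l : Filter ℝ) : Prop := ∀ a b : ℝ, 1 ≤ a → a < b → ∀ ε : ℝ, 0 < ε →
  ∀ᶠ T in l, (b - a) - ε ≤ ∫ α in a..b, (F T α).re

/-- close pairs are slightly rare: for all `η, β₀ > 0` there is `β ∈ (0, β₀)` such that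
`N(T; -β, β) ≤ (1 + ηβ) X(T)` eventually -/
def Repulsion (l : Filter ℝ) : Prop := ∀ η : ℝ, 0 < η → ∀ β₀ : ℝ, 0 < β₀ →
  ∃ β : ℝ, 0 < β ∧ β < β₀ ∧ ∀ᶠ T in l, (N T (-β) β : ℝ) ≤ (1 + η * β) * X T

lemma Mont_eq (l : Filter ℝ) : Montgomery l ↔ Pool.Agent.Y744.G.Montgomery l := Iff.rfl

lemma F_eq : F = Pool.Agent.Y749.Rig.P.F := rfl

lemma N_eq : N = Pool.Agent.Y744.G.N := rfl

lemma P_eq : P = Pool.Agent.Y744.G.P := rfl

lemma X_eq : X = Pool.Agent.Y744.G.X := rfl

open Pool.Agent.Y749.Rig Pool.Agent.NH10.SM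

lemma gd_small {u : ℝ} (h : Real.pi * |u| ≤ 1) :
    Pool.Agent.Y744.gd u ≤ (Real.pi * u) ^ 2 / 2 := by
  have hpi := Real.pi_pos
  have key : ∀ x : ℝ, 0 < x → x ≤ 1 → 1 - Real.sinc x ^ 2 ≤ x ^ 2 / 2 := by
    intro x hx hx1
    rw [Real.sinc_of_ne_zero hx.ne']
    have h1 := (Real.sin_gt_sub_cube hx).le
    have h2 : 1 - x ^ 2 / 6 ≤ Real.sin x / x := by
      rw [le_div_iff₀ hx]
      nlinarith
    have h3 : (1 - x ^ 2 / 6) ^ 2 ≤ (Real.sin x / x) ^ 2 :=
      pow_le_pow_left₀ (by nlinarith) h2 2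
    nlinarith [sq_nonneg (x ^ 2)]
  unfold Pool.Agent.Y744.gd
  rcases lt_trichotomy u 0 with h1 | h1 | h1
  · have := key (-(Real.pi * u)) (by nlinarith) (by rw [abs_of_neg h1] at h; linarith)
    rw [Real.sinc_neg] at this
    linarith
  · rw [h1]
    simp
  · rw [abs_of_pos h1] at h
    exact key (Real.pi * u) (by positivity) h

lemma pr_small {β : ℝ} (hβ : 0 < β) (h : Real.pi * β ≤ 1) :
    Pool.Agent.Y744.pr (-β) β ≤ 1 + Real.pi ^ 2 * β ^ 3 := by
  have hpi := Real.pi_pos
  unfold Pool.Agent.Y744.pr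
  rw [Set.indicator_of_mem (show (0 : ℝ) ∈ Set.Icc (-β) β from ⟨by linarith, hβ.le⟩),
    Pool.Agent.Y744.gp_sub]
  have h1 : ∫ u in (-β)..β, Pool.Agent.Y744.gd u ≤ ∫ u in (-β)..β, Real.pi ^ 2 * β ^ 2 / 2 := by
    refine intervalIntegral.integral_mono_on (by linarith)
      (Pool.Agent.Y744.gd_cont.intervalIntegrable _ _) (by simp) fun u hu => ?_
    have h2 : |u| ≤ β := abs_le.2 ⟨hu.1, hu.2⟩
    refine (gd_small (by nlinarith)).trans ?_
    have h3 : u ^ 2 ≤ β ^ 2 := by
      rw [← sq_abs]
      exact pow_le_pow_left₀ (abs_nonneg _) h2 2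
    nlinarith [sq_pos_of_pos hpi]
  rw [intervalIntegral.integral_const, smul_eq_mul] at h1
  nlinarith

/-- **Pair correlation from lower bounds and repulsion (under RH).**  Montgomery's conjecture holds
along `l` if and only if the means of `F` beyond `1` are asymptotically at least the length of the
window and close pairs are slightly rare. -/
theorem result (hRH : RiemannHypothesis) (l : Filter ℝ) (hl : l ≤ atTop) :
    Montgomery l ↔ MeanLower l ∧ Repulsion l := by
  have hmain := (P.main hRH l hl).1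
  constructor
  · intro h
    have h0 := hmain.1 ((Mont_eq l).1 h)
    have hm : MeanLim l := mean_lim hRH hl fun R => (P.up_iff hl R).1 (h0 R)
    constructor
    · intro a b ha hab ε hε
      have h1 := hm a b (by linarith) hab
      have h2 : ∫ α in a..b, mn α = b - a := by
        have : ∫ α in a..b, mn α = ∫ α in a..b, (1 : ℝ) := by
          refine intervalIntegral.integral_congr fun α hα => ?_
          rw [Set.uIcc_of_le hab.le] at hα
          show mn α = 1
          unfold mn
          rw [abs_of_nonneg (by linarith [hα.1]), min_eq_right (by linarith [hα.1])]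
        rw [this]; simp
      rw [h2] at h1
      filter_upwards [h1.eventually (le_mem_nhds (show b - a - ε < b - a by linarith)),
        hl (eventually_ge_atTop 10)] with T t1 hT
      rw [F_eq, P.mean_eq hT]
      exact t1
    · intro η hη β₀ hβ₀
      have hpi := Real.pi_pos
      obtain ⟨β, hβ⟩ : ∃ β : ℝ, β = min (β₀ / 2) (min (1 / 4) (η / 20)) := ⟨_, rfl⟩
      have hβ0 : 0 < β := by
        rw [hβ]; exact lt_min (by positivity) (lt_min (by norm_num) (by positivity))
      have hβ1 : β ≤ β₀ / 2 := by rw [hβ]; exact min_le_left _ _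
      have hβ2 : β ≤ 1 / 4 := by rw [hβ]; exact (min_le_right _ _).trans (min_le_left _ _)
      have hβ3 : β ≤ η / 20 := by rw [hβ]; exact (min_le_right _ _).trans (min_le_right _ _)
      have hpi4 := Real.pi_lt_d2
      have h3 := pr_small hβ0 (by nlinarith)
      have h4 : Real.pi ^ 2 * β ^ 3 < η * β := by
        have k1 : Real.pi ^ 2 ≤ 10 := by nlinarith
        have k2 : β ^ 3 ≤ (η / 20) * β := by
          have : β ^ 3 = β ^ 2 * β := by ring
          rw [this]
          refine mul_le_mul_of_nonneg_right ?_ hβ0.le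
          nlinarith
        have k3 : 0 < η * β := by positivity
        have k4 : Real.pi ^ 2 * β ^ 3 ≤ 10 * β ^ 3 :=
          mul_le_mul_of_nonneg_right k1 (by positivity)
        nlinarith
      refine ⟨β, hβ0, by linarith, ?_⟩
      have h5 := (Pool.Agent.Y744.G.Mont_iff hl).1 ((Mont_eq l).1 h) (-β) β (by linarith)
      filter_upwards [h5.eventually (gt_mem_nhds (show Pool.Agent.Y744.pr (-β) β < 1 + η * β by
        linarith)), hl (eventually_ge_atTop 10)] with T t1 hT
      have hX := Pool.Agent.Y744.Xf_pos (V := T) (by linarith)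
      unfold Pool.Agent.Y744.Nr at t1
      rw [div_lt_iff₀ hX, ← Pool.Agent.Y744.G.N_eq (by linarith), ← Pool.Agent.Y744.G.X_eq] at t1
      exact t1.le
  · rintro ⟨h1, h2⟩
    rw [Mont_eq, hmain]
    intro R
    rw [P.up_iff hl]
    intro a b ha hab _ ε hε
    refine Pool.Agent.NH10.RB.excess hRH hl ?_ ?_ ha hab hε
    · intro a b ha hab ε hε
      filter_upwards [h1 a b ha hab ε hε, hl (eventually_ge_atTop 10)] with T t1 hT
      rw [F_eq, P.mean_eq hT] at t1
      exact t1
    · intro η hη β₀ hβ₀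
      obtain ⟨β, hβ, hββ, hN⟩ := h2 η hη β₀ hβ₀
      refine ⟨β, hβ, hββ, ?_⟩
      filter_upwards [hN, hl (eventually_ge_atTop 10)] with T t1 hT
      have hX := Pool.Agent.Y744.Xf_pos (V := T) (by linarith)
      rw [Mp_PC hT measurableSet_Icc, div_le_iff₀ hX, ← Pool.Agent.Y744.G.N_eq (by linarith),
        ← Pool.Agent.Y744.G.X_eq]
      exact t1

end Pool.Agent.Results.MP_103a5c_nt.LowerBoundsRepulsion
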