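import Pool.Agent.NH10.SM.Main
import Pool.Agent.NH10.Lat

/-!
# Pair correlation and monotonicity of Montgomery's function along shifts

Assume the Riemann hypothesis.  Montgomery's theorem gives `F(α) → |α|` for `0 < |α| < 1`, and his
conjecture is (equivalent to) `F(α) → 1` in the mean on windows beyond `1`.  For `h > 0` we say that
`F` *increases along the shift* `h` if, for some `c < 1`, the mean of `F` over each window
`[a, b]`, `a > c`, is asymptotically at most the mean of `F` over the shifted window
`[a + h, b + h]`.  Nothing is assumed about the size of `F`.  We show that Montgomery's conjecture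
holds along a filter if and only if the shifts along which `F` increases do not all lie in a
lattice `c ℕ` (for instance if there are two incommensurable such shifts, or arbitrarily small
ones).  Lattices cannot be allowed: a limit of period `2` (the `Alternative Hypothesis`) increases
along the shifts in `2 ℕ`.
-/

open MeasureTheory Filter Topology Real
open Complex (I)

namespace Pool.Agent.Results.MP_103a5c_nt.ShiftMonotone

/-- the nontrivial zeros of `ζ` with ordinate in `(0, T]` -/
def zeros (T : ℝ) : Set ℂ :=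
  {s : ℂ | 0 < s.re ∧ s.re < 1 ∧ 0 < s.im ∧ s.im ≤ T ∧ riemannZeta s = 0}

/-- the multiplicity of `s` as a zero of `ζ` -/
noncomputable def mult (s : ℂ) : ℕ := analyticOrderNatAt riemannZeta s

/-- `N(T; α, β)`: the number of ordered pairs of zeros (counted with multiplicity, the diagonal
included) with ordinates in `(0, T]` whose difference lies in `[2πα / log T, 2πβ / log T]` -/
noncomputable def N (T α β : ℝ) : ℕ :=
  ∑ᶠ s ∈ zeros T, ∑ᶠ s' ∈ {s' : ℂ | s' ∈ zeros T ∧
    2 * Real.pi * α / Real.log T ≤ s.im - s'.im ∧ s.im - s'.im ≤ 2 * Real.pi * β / Real.log T},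
      mult s * mult s'

/-- the constant of the conjecture -/
noncomputable def P (α β : ℝ) : ℝ :=
  (∫ u in α..β, (1 - (Real.sin (Real.pi * u) / (Real.pi * u)) ^ 2)) +
    if α ≤ 0 ∧ 0 ≤ β then 1 else 0

/-- `(T / 2π) log T` -/
noncomputable def X (T : ℝ) : ℝ := T / (2 * Real.pi) * Real.log T

/-- Montgomery's pair correlation conjecture along `l` (`l = atTop` is the conjecture) -/
def Montgomery (l : Filter ℝ) : Prop := ∀ α β : ℝ, α < β →
  Asymptotics.IsEquivalent l (fun T => (N T α β : ℝ)) (fun T => P α β * X T)

/-- Montgomery's function `F(α) = F(α, T)` -/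
noncomputable def F (T α : ℝ) : ℂ :=
  (X T : ℂ)⁻¹ * ∑ᶠ s ∈ zeros T, ∑ᶠ s' ∈ zeros T, (mult s : ℂ) * (mult s' : ℂ) *
    ((T : ℂ) ^ (I * α * (s.im - s'.im)) * (4 / (4 + (s.im - s'.im) ^ 2)))

/-- along `l`, the function `F` increases in the mean along the shift by `h`, to the right of some
point `c < 1` -/
def Increases (l : Filter ℝ) (h : ℝ) : Prop := ∃ c : ℝ, c < 1 ∧
  ∀ a b : ℝ, c < a → a < b → ∀ ε : ℝ, 0 < ε →
    ∀ᶠ T in l, ∫ α in a..b, (F T α).re ≤ (∫ α in (a + h)..(b + h), (F T α).re) + ε

/-- the positive shifts along which `F` increases -/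
def Shifts (l : Filter ℝ) : Set ℝ := {h : ℝ | 0 < h ∧ Increases l h}

lemma Mont_eq (l : Filter ℝ) : Montgomery l ↔ Pool.Agent.Y744.G.Montgomery l := Iff.rfl

lemma F_eq : F = Pool.Agent.Y749.Rig.P.F := rfl

open Pool.Agent.Y749.Rig Pool.Agent.NH10.SM

lemma Inc_iff {l : Filter ℝ} (hl : l ≤ atTop) (h : ℝ) : Increases l h ↔ ShiftFr l h := by
  refine exists_congr fun c => and_congr_right fun _ => ?_
  refine forall_congr' fun a => forall_congr' fun b => forall_congr' fun _ =>
    forall_congr' fun _ => forall_congr' fun ε => forall_congr' fun _ => ?_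
  rw [F_eq]
  constructor
  · intro h
    filter_upwards [h, hl (eventually_ge_atTop 10)] with T h1 h2
    rwa [P.mean_eq h2, P.mean_eq h2] at h1
  · intro h
    filter_upwards [h, hl (eventually_ge_atTop 10)] with T h1 h2
    rwa [P.mean_eq h2, P.mean_eq h2]

/-- **Pair correlation and monotonicity along shifts (under RH).**  Montgomery's conjecture holds
along `l` if and only if the shifts along which `F` increases do not all lie in a lattice. -/
theorem result (hRH : RiemannHypothesis) (l : Filter ℝ) (hl : l ≤ atTop) :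
    Montgomery l ↔ ¬ ∃ c : ℝ, 0 < c ∧ ∀ h ∈ Shifts l, ∃ n : ℕ, h = n * c := by
  have hmain := (P.main hRH l hl).1
  constructor
  · rintro h ⟨c, hc, hall⟩
    have h0 := hmain.1 ((Mont_eq l).1 h)
    have hm : MeanLim l := mean_lim hRH hl fun R => (P.up_iff hl R).1 (h0 R)
    obtain ⟨n, hn⟩ := hall (c / 2) ⟨by positivity, (Inc_iff hl _).2
      (shift_of_mean hm (by positivity))⟩
    have h1 : (n : ℝ) = 1 / 2 := by
      field_simp at hn ⊢
      linarith
    have h2 : ((2 * n : ℕ) : ℝ) = ((1 : ℕ) : ℝ) := by
      push_cast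
      rw [h1]
      norm_num
    have h3 : 2 * n = 1 := Nat.cast_injective h2
    omega
  · intro h
    have hd := Pool.Agent.NH10.dense_of_not_lattice (S := Shifts l) (fun h hh => hh.1) h
    rw [Mont_eq, hmain]
    intro R
    rw [P.up_iff hl]
    exact up_of_shift hRH hl (fun h hh => hh.1) hd (fun h hh => (Inc_iff hl h).1 hh.2) R

end Pool.Agent.Results.MP_103a5c_nt.ShiftMonotone
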