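import Pool.Agent.NH10.BM.High
import Pool.Agent.NH10.Lat

/-!
# One-sided asymptotics in very sparse families of far windows decide the pair correlation conjecture

Assume the Riemann hypothesis.  For a window `[x, x + ℓ]` let `D T x (x + ℓ)` be the normalised
number of pairs in the window minus its conjectured value.  The condition `Sparse F ℓ s`
(`s = 1` or `s = -1`) asks that `s * D T x (x + ℓ)` be asymptotically at most `C exp (-δ r k)` for
the `x` in intervals `[a k, a k + r k]`, `r k ≤ a k`, of a *long system*: `∑ (r k / a k) ^ 2 = ∞`.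
The intervals may be as sparse as one likes (`r k = a k`, `a (k + 1)` enormous), or short and
frequent.  Montgomery's conjecture holds along a filter if and only if the lengths `ℓ` for which
one of the two conditions `Sparse F ℓ (±1)` holds are not all multiples of one number (for instance
if there are two incommensurable such lengths, or arbitrarily small ones).

The main ingredient is a uniqueness theorem of Beurling–Malliavin type for functions with a
spectral gap and a small *negative part* on a long system (`Pool.Agent.NH10.BM`).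
-/

open MeasureTheory Filter Topology Real

namespace Pool.Agent.Results.MP_103a5c_nt.SparseWindows

/-- the nontrivial zeros of `ζ` with ordinate in `(0, T]` -/
def zeros (T : ℝ) : Set ℂ :=
  {s : ℂ | 0 < s.re ∧ s.re < 1 ∧ 0 < s.im ∧ s.im ≤ T ∧ riemannZeta s = 0}

/-- the multiplicity of `s` as a zero of `ζ` -/
noncomputable def mult (s : ℂ) : ℕ := analyticOrderNatAt riemannZeta s

/-- `N(T; α, β)`: the number of ordered pairs of zeros (counted with multiplicity, the diagonal
included) with ordinates in `(0, T]` whose difference lies in `[2πα / log T, 2πβ / log T]` -/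
noncomputable def N (T α β : ℝ) : ℕ :=
  ∑ᶠ s ∈ zeros T, ∑ᶠ s' ∈ {s' : ℂ | s' ∈ zeros T ∧
    2 * Real.pi * α / Real.log T ≤ s.im - s'.im ∧ s.im - s'.im ≤ 2 * Real.pi * β / Real.log T},
      mult s * mult s'

/-- the constant of the conjecture -/
noncomputable def P (α β : ℝ) : ℝ :=
  (∫ u in α..β, (1 - (Real.sin (Real.pi * u) / (Real.pi * u)) ^ 2)) +
    if α ≤ 0 ∧ 0 ≤ β then 1 else 0

/-- `(T / 2π) log T` -/
noncomputable def X (T : ℝ) : ℝ := T / (2 * Real.pi) * Real.log T

/-- the discrepancy of the window `[α, β]` -/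
noncomputable def D (T α β : ℝ) : ℝ := N T α β / X T - P α β

/-- Montgomery's pair correlation conjecture along `F` (`F = atTop` is the conjecture) -/
def Montgomery (F : Filter ℝ) : Prop := ∀ α β : ℝ, α < β →
  Asymptotics.IsEquivalent F (fun T => (N T α β : ℝ)) (fun T => P α β * X T)

/-- one-sided asymptotic bounds for the windows `[x, x + ℓ]`, `x` in a long system of intervals:
there are intervals `[a k, a k + r k]`, `0 < r k ≤ a k`, `a k + r k ≤ a (k + 1)`, with
`∑ (r k / a k) ^ 2 = ∞`, and `C, δ > 0`, such that `limsup_F s * D T x (x + ℓ) ≤ C exp (-δ r k)`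
for all `x ∈ [a k, a k + r k]` -/
def Sparse (F : Filter ℝ) (ℓ s : ℝ) : Prop :=
  ∃ (a r : ℕ → ℝ) (C δ : ℝ), 0 < C ∧ 0 < δ ∧
    (∀ k, 0 < r k) ∧ (∀ k, r k ≤ a k) ∧ (∀ k, a k + r k ≤ a (k + 1)) ∧
    (¬ Summable fun k => (r k / a k) ^ 2) ∧
    ∀ k, ∀ x ∈ Set.Icc (a k) (a k + r k), ∀ ε : ℝ, 0 < ε →
      ∀ᶠ T in F, s * D T x (x + ℓ) ≤ C * Real.exp (-(δ * r k)) + ε

/-- the window lengths for which a one-sided bound holds -/
def Lengths (F : Filter ℝ) : Set ℝ := {ℓ : ℝ | 0 < ℓ ∧ (Sparse F ℓ 1 ∨ Sparse F ℓ (-1))}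

lemma zeros_eq : zeros = Pool.Agent.Y744.G.zeros := rfl

lemma N_eq : N = Pool.Agent.Y744.G.N := rfl

lemma D_eq : D = Pool.Agent.Y744.G.D := rfl

lemma Mont_eq (F : Filter ℝ) : Montgomery F ↔ Pool.Agent.Y744.G.Montgomery F := Iff.rfl

open Pool.Agent.Y744 Pool.Agent.NH10.BM

lemma Sp_iff {F : Filter ℝ} (hF : F ≤ atTop) (ℓ s : ℝ) : Sparse F ℓ s ↔ SpN F ℓ s := by
  have hev : ∀ᶠ T in F, 1 < T := hF (eventually_gt_atTop 1)
  have e : ∀ a, 0 < a → pr a (a + ℓ) = gp (a + ℓ) - gp a := by
    intro a ha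
    unfold pr
    rw [Set.indicator_of_notMem (by
      rintro ⟨h2, h3⟩
      linarith)]
    ring
  constructor
  · rintro ⟨a, r, C, δ, hC, hδ, hr, hra, har, hns, h⟩
    refine ⟨a, r, C, δ, hC, hδ, hr, hra, har, hns, fun k x hx ε hε => ?_⟩
    have hx0 : 0 < x := lt_of_lt_of_le ((hr k).trans_le (hra k)) hx.1
    filter_upwards [h k x hx ε hε, hev] with T h1 h2
    rw [D_eq, G.D_eq h2, e x hx0] at h1
    exact h1
  · rintro ⟨a, r, C, δ, hC, hδ, hr, hra, har, hns, h⟩
    refine ⟨a, r, C, δ, hC, hδ, hr, hra, har, hns, fun k x hx ε hε => ?_⟩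
    have hx0 : 0 < x := lt_of_lt_of_le ((hr k).trans_le (hra k)) hx.1
    filter_upwards [h k x hx ε hε, hev] with T h1 h2
    rw [D_eq, G.D_eq h2, e x hx0]
    exact h1

/-- the conjecture gives all one-sided bounds -/
lemma Sp_of_mont {F : Filter ℝ} (hF : F ≤ atTop) (h : Montgomery F) {ℓ s : ℝ} (hℓ : 0 < ℓ)
    (hs : s = 1 ∨ s = -1) : Sparse F ℓ s := by
  refine ⟨fun k => 2 ^ k, fun k => 2 ^ k, 1, 1, one_pos, one_pos, fun k => by positivity,
    fun k => le_rfl, fun k => ?_, ?_, fun k x hx ε hε => ?_⟩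
  · show (2 : ℝ) ^ k + 2 ^ k ≤ 2 ^ (k + 1)
    rw [pow_succ]
    linarith
  · have : (fun k : ℕ => ((2 : ℝ) ^ k / 2 ^ k) ^ 2) = fun _ => 1 := by
      funext k
      rw [div_self (by positivity), one_pow]
    rw [this]
    intro hc
    have := hc.tendsto_atTop_zero
    exact one_ne_zero (tendsto_nhds_unique tendsto_const_nhds this)
  · have h1 := (Mont_eq F).1 h
    rw [G.Mont_iff hF] at h1
    have h2 := h1 x (x + ℓ) (by linarith)
    have hev : ∀ᶠ T in F, 1 < T := hF (eventually_gt_atTop 1)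
    filter_upwards [(Metric.tendsto_nhds.1 h2) ε hε, hev] with T hT hT1
    rw [Real.dist_eq] at hT
    rw [D_eq, G.D_eq hT1]
    have h3 := abs_lt.1 hT
    have h4 := Real.exp_pos (-(1 * (2 : ℝ) ^ k))
    rcases hs with rfl | rfl <;> linarith [h3.1, h3.2]

/-- **Sparse one-sided criterion for Montgomery's conjecture (under RH).**  The conjecture holds
along `F` if and only if the window lengths for which a sparse one-sided bound holds do not all lie
in a lattice. -/
theorem result (hRH : RiemannHypothesis) (F : Filter ℝ) (hF : F ≤ atTop) :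
    Montgomery F ↔ ¬ ∃ c : ℝ, 0 < c ∧ ∀ ℓ ∈ Lengths F, ∃ n : ℕ, ℓ = n * c := by
  constructor
  · rintro h ⟨c, hc, hall⟩
    obtain ⟨n, hn⟩ := hall (c / 2) ⟨by positivity, Or.inl (Sp_of_mont hF h (by positivity)
      (Or.inl rfl))⟩
    have h1 : (n : ℝ) = 1 / 2 := by
      field_simp at hn ⊢
      linarith
    have h2 : ((2 * n : ℕ) : ℝ) = ((1 : ℕ) : ℝ) := by
      push_cast
      rw [h1]
      norm_num
    have h3 : 2 * n = 1 := Nat.cast_injective h2
    omega
  · intro h
    have hd := Pool.Agent.NH10.dense_of_not_lattice (S := Lengths F) (fun ℓ hℓ => hℓ.1) h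
    rw [Mont_eq, G.Mont_iff hF]
    refine fun α β hαβ => Nr_all hF (sparse_Aa hRH hF (fun ℓ hℓ => hℓ.1) hd fun ℓ hℓ => ?_) hαβ
    rcases hℓ.2 with h1 | h1
    · exact ⟨1, Or.inl rfl, (Sp_iff hF ℓ 1).1 h1⟩
    · exact ⟨-1, Or.inr rfl, (Sp_iff hF ℓ (-1)).1 h1⟩

end Pool.Agent.Results.MP_103a5c_nt.SparseWindows
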